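import Pool.Agent.Y173.LG.Orb

/-! # Almost every orbit of the geodesic flow escapes to infinity, in every indefinite signature

For all `p, q ≥ 1` with `p + q ≥ 3` there is a closed connected manifold with a complete (flat)
metric of signature `(p, q)` such that almost every orbit of the geodesic flow leaves every compact
subset of the tangent bundle in both time directions. -/

set_option maxSynthPendingDepth 3
set_option linter.overlappingInstances false

open scoped Manifold ContDiff Topology
open Pool.Agent.Helper831 Pool.Agent.Y173.LG

namespace Pool.Agent.Results.MP_53eea8_gt.EscapingOrbits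

/-- The metric `g` on `M` has signature `(p, q)`, is complete, and

* the set of tangent vectors `v` whose orbit `{γ_v'(t)}` does not escape to infinity in `TM` in
  both time directions is a null set;
* the set of tangent vectors `v` with bounded orbit is a null set;
* the set of tangent vectors `v` with unbounded orbit is not a null set. -/
def DivergentFlow {E : Type} [NormedAddCommGroup E] [NormedSpace ℝ E]
    [MeasureTheory.MeasureSpace E]
    {M : Type} [TopologicalSpace M] [ChartedSpace E M] [IsManifold 𝓘(ℝ, E) ∞ M]
    (g : SemiRiemannianMetric E M) (p q : ℕ) : Prop :=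
  HasSignature g p q ∧ g.IsComplete ∧
    IsNullSet {v : TangentBundle 𝓘(ℝ, E) M | ¬ OrbitEscapes g v} ∧
    IsNullSet {v : TangentBundle 𝓘(ℝ, E) M | g.OrbitBounded v} ∧
    ¬ IsNullSet {v : TangentBundle 𝓘(ℝ, E) M | ¬ g.OrbitBounded v}

/-- There are a closed connected smooth manifold `M` modelled on `E` and a metric on `M` with
`DivergentFlow g p q`. -/
def Exists (E : Type) [NormedAddCommGroup E] [NormedSpace ℝ E]
    [MeasureTheory.MeasureSpace E] (p q : ℕ) : Prop :=
  ∃ (M : Type) (_ : TopologicalSpace M) (_ : ChartedSpace E M)
    (_ : IsManifold 𝓘(ℝ, E) ∞ M) (_ : CompactSpace M) (_ : T2Space M)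
    (_ : ConnectedSpace M) (g : SemiRiemannianMetric E M), DivergentFlow g p q

/-- Let `p, q ≥ 1` and `p + q ≥ 3`. There are a closed connected smooth manifold `M` modelled on a
Euclidean space `EE a b` and a complete semi-Riemannian metric `g` of signature `(p, q)` on `M`
such that almost all orbits of the geodesic flow escape to infinity in both time directions, and the
set of vectors with unbounded orbit is not null. -/
theorem result (p q : ℕ) (hp : 1 ≤ p) (hq : 1 ≤ q) (hpq : 3 ≤ p + q) :
    ∃ a b : ℕ, Exists (EE a b) p q := by
  have key : ∀ (a b : ℕ) {s : ℝ} (hs : s ≠ 0) (p q : ℕ),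
      HasSignature (met a b hs) p q → ∃ a b : ℕ, Exists (EE a b) p q := by
    intro a b s hs p q hsig
    obtain ⟨h1, h2, h3, h4⟩ := main_orb a b hs
    exact ⟨a, b, NTMfd a b, inferInstance, inferInstance, inferInstance, inferInstance,
      inferInstance, inferInstance, met a b hs, hsig, h1, h2, h3, h4⟩
  rcases Nat.lt_or_ge 1 p with h | h
  · obtain ⟨a, rfl⟩ := Nat.exists_eq_add_of_le (show 2 ≤ p from h)
    obtain ⟨b, rfl⟩ := Nat.exists_eq_add_of_le hq
    exact key a b one_ne_zero _ _ sig_pos
  · have hp1 : p = 1 + 0 := by omega
    obtain ⟨a, rfl⟩ := Nat.exists_eq_add_of_le (show 2 ≤ q by omega)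
    subst hp1
    exact key a 0 (neg_ne_zero.2 one_ne_zero) _ _ sig_neg

end Pool.Agent.Results.MP_53eea8_gt.EscapingOrbits
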